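import Pool.Agent.Helper26.AF.Goals2

/-!
Project AF (MP_af6c86_pr), packet KDI: disconnected kernels.
-/

namespace Pool.Agent.Helper24.AF

open Finset Pool.Agent.Helper26.AF

/-! ### Double factorials -/

/-- `(2m - 1)!!`. -/
def DD (m : ℕ) : ℕ := Nat.doubleFactorial (2 * m - 1)

theorem DD_pos (m : ℕ) : 0 < DD m := Nat.doubleFactorial_pos _

theorem DD_fact (m : ℕ) : DD m * (2 ^ m * m.factorial) = (2 * m).factorial := by
  rcases m with _ | m
  · rfl
  · have h1 := Nat.factorial_eq_mul_doubleFactorial (2 * m + 1)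
    have h2 : 2 * (m + 1) = 2 * m + 1 + 1 := by ring
    rw [h2, h1, ← h2, Nat.doubleFactorial_two_mul]
    unfold DD
    have h3 : 2 * (m + 1) - 1 = 2 * m + 1 := by omega
    rw [h3]
    ring

theorem DD_mul (a b : ℕ) :
    DD a * DD b * (2 * (a + b)).choose (2 * a) = DD (a + b) * (a + b).choose a := by
  have h1 := DD_fact a
  have h2 := DD_fact b
  have h3 := DD_fact (a + b)
  have h4 := Nat.choose_mul_factorial_mul_factorial (n := 2 * (a + b)) (k := 2 * a) (by omega)
  have h5 := Nat.choose_mul_factorial_mul_factorial (n := a + b) (k := a) (by omega)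
  have e1 : 2 * (a + b) - 2 * a = 2 * b := by omega
  have e2 : a + b - a = b := by omega
  rw [e1, ← h1, ← h2, ← h3, ← h5] at h4
  rw [e2] at h4
  have hp : 0 < 2 ^ (a + b) * (a.factorial * b.factorial) := by positivity
  apply Nat.eq_of_mul_eq_mul_right hp
  rw [pow_add] at h4 ⊢
  linarith [h4]

theorem vand (m n i k : ℕ) : m.choose i * n.choose k ≤ (m + n).choose (i + k) := by
  rw [Nat.add_choose_eq]
  exact Finset.single_le_sum (f := fun ij : ℕ × ℕ => m.choose ij.1 * n.choose ij.2)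
    (fun _ _ => Nat.zero_le _) (mem_antidiagonal.2 rfl : (i, k) ∈ antidiagonal (i + k))

theorem DD_le (j l : ℕ) :
    DD (3 * j) * DD (3 * l) * ((2 * (j + l)).choose (2 * j) * (j + l).choose j) ≤
      DD (3 * (j + l)) := by
  have h1 := DD_mul (3 * j) (3 * l)
  have h2 := vand (3 * j + 3 * l) (3 * j + 3 * l) (3 * j) (3 * j)
  have h3 := vand (2 * (j + l)) (j + l) (2 * j) j
  have e1 : 3 * j + 3 * l + (3 * j + 3 * l) = 2 * (3 * j + 3 * l) := by ring
  have e2 : 3 * j + 3 * j = 2 * (3 * j) := by ring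
  have e3 : 2 * (j + l) + (j + l) = 3 * j + 3 * l := by ring
  have e4 : 2 * j + j = 3 * j := by ring
  have e5 : 3 * (j + l) = 3 * j + 3 * l := by ring
  rw [e1, e2] at h2
  rw [e3, e4] at h3
  rw [e5]
  set c := (3 * j + 3 * l).choose (3 * j) with hc
  have hcpos : 0 < c := Nat.choose_pos (by omega)
  have h4 : DD (3 * j) * DD (3 * l) * c ≤ DD (3 * j + 3 * l) := by
    have h5 : DD (3 * j) * DD (3 * l) * (c * c) ≤ DD (3 * j + 3 * l) * c := by
      calc DD (3 * j) * DD (3 * l) * (c * c)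
          ≤ DD (3 * j) * DD (3 * l) * (2 * (3 * j + 3 * l)).choose (2 * (3 * j)) :=
            Nat.mul_le_mul_left _ h2
        _ = DD (3 * j + 3 * l) * c := h1
    apply Nat.le_of_mul_le_mul_right _ hcpos
    calc DD (3 * j) * DD (3 * l) * c * c = DD (3 * j) * DD (3 * l) * (c * c) := by ring
      _ ≤ _ := h5
  exact le_trans (Nat.mul_le_mul_left _ h3) h4

theorem choose_ge (n : ℕ) : ∀ j l : ℕ, j + l = n → 2 ≤ j → 2 ≤ l →
    (n : ℝ) * (n - 1) / 2 ≤ (n.choose j : ℝ) := by
  induction n with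
  | zero => intro j l h1 h2 _; omega
  | succ n ih =>
    intro j l h1 h2 h3
    have h2c : ∀ m : ℕ, ((m.choose 2 : ℕ) : ℝ) = m * (m - 1) / 2 := by
      intro m
      rw [Nat.cast_choose_two]
    rcases Nat.lt_or_ge 2 j with h4 | h4
    · rcases Nat.lt_or_ge 2 l with h5 | h5
      · obtain ⟨j', rfl⟩ : ∃ j', j = j' + 1 := ⟨j - 1, by omega⟩
        rw [Nat.choose_succ_succ]
        have a1 := ih j' l (by omega) (by omega) h3
        have a2 := ih (j' + 1) (l - 1) (by omega) h2 (by omega)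
        push_cast
        have hn : (5 : ℝ) ≤ n := by
          have : 5 ≤ n := by omega
          exact_mod_cast this
        have a3 : ((n.choose j' : ℕ) : ℝ) + ((n.choose (j' + 1) : ℕ) : ℝ) ≥
          (n : ℝ) * (n - 1) / 2 + (n : ℝ) * (n - 1) / 2 := by linarith
        have : (n.choose j'.succ : ℝ) = (n.choose (j' + 1) : ℝ) := rfl
        nlinarith
      · have h6 : l = 2 := by omega
        subst h6
        have h7 : (n + 1).choose j = (n + 1).choose 2 := by
          rw [← Nat.choose_symm (n := n + 1) (k := 2) (by omega)]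
          congr 1
          omega
        rw [h7, h2c]
    · have h6 : j = 2 := by omega
      subst h6
      rw [h2c]

/-! ### Pairings -/

/-- The number of pairings of a set with `3a` elements. -/
def cc (a : ℕ) : ℕ := if Even a then DD (3 * a / 2) else 0

theorem card_pair (hPMC : StmtPMC) (H : Type) [Fintype H] (a : ℕ) (hH : Fintype.card H = 3 * a) :
    Nat.card {τ : Equiv.Perm H // IsPair τ} = cc a := by
  classical
  unfold cc
  split_ifs with h
  · obtain ⟨b, rfl⟩ := h
    have e : 3 * (b + b) / 2 = 3 * b := by omega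
    rw [e]
    exact hPMC H (3 * b) (by rw [hH]; ring)
  · rw [Nat.card_eq_zero]
    left
    constructor
    rintro ⟨τ, hτ⟩
    let f : Function.End H := fun x => τ x
    have h1 : f ^ 2 ^ 1 = 1 := by
      rw [pow_one, sq]
      funext x
      exact (hτ x).1
    have h2 := Equiv.Perm.card_fixedPoints_modEq (p := 2) (n := 1) h1
    have h3 : Fintype.card (Function.fixedPoints f) = 0 := by
      rw [Fintype.card_eq_zero_iff]
      constructor
      rintro ⟨x, hx⟩
      exact (hτ x).2 hx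
    rw [h3, hH] at h2
    rw [Nat.modEq_zero_iff_dvd] at h2
    apply h
    rw [Nat.even_iff]
    omega

theorem card_pres (hPMC : StmtPMC) {r : ℕ} (A : Finset (Fin (2 * r))) :
    Nat.card {κ : Equiv.Perm (KX r) // IsPair κ ∧ ∀ x, x.1 ∈ A → (κ x).1 ∈ A} ≤
      cc #A * cc (2 * r - #A) := by
  classical
  have hin : Fintype.card {x : KX r // x.1 ∈ A} = 3 * #A := by
    rw [Fintype.card_subtype]
    have : (univ.filter fun x : KX r => x.1 ∈ A) = A ×ˢ (univ : Finset (Fin 3)) := by
      ext x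
      simp
    rw [this, card_product]
    simp [mul_comm]
  have hout : Fintype.card {x : KX r // ¬ x.1 ∈ A} = 3 * (2 * r - #A) := by
    rw [Fintype.card_subtype]
    have : (univ.filter fun x : KX r => ¬ x.1 ∈ A) = Aᶜ ×ˢ (univ : Finset (Fin 3)) := by
      ext x
      simp
    rw [this, card_product, card_compl]
    simp [mul_comm]
  rw [← card_pair hPMC _ _ hin, ← card_pair hPMC _ _ hout, ← Nat.card_prod]
  have hp : ∀ κ : {κ : Equiv.Perm (KX r) // IsPair κ ∧ ∀ x, x.1 ∈ A → (κ x).1 ∈ A},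
      ∀ x, (κ.1 x).1 ∈ A ↔ x.1 ∈ A := by
    intro κ x
    constructor
    · intro h
      have h1 := κ.2.2 _ h
      rwa [(κ.2.1 x).1] at h1
    · exact κ.2.2 x
  have hq : ∀ κ : {κ : Equiv.Perm (KX r) // IsPair κ ∧ ∀ x, x.1 ∈ A → (κ x).1 ∈ A},
      ∀ x, (¬ (κ.1 x).1 ∈ A) ↔ ¬ x.1 ∈ A := fun κ x => not_congr (hp κ x)
  apply Nat.card_le_card_of_injective (fun κ =>
    ((⟨κ.1.subtypePerm (p := fun x => x.1 ∈ A) (hp κ), fun x =>
        ⟨Subtype.ext (κ.2.1 x.1).1, fun h => (κ.2.1 x.1).2 (congrArg Subtype.val h)⟩⟩,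
      ⟨κ.1.subtypePerm (p := fun x => ¬ x.1 ∈ A) (hq κ), fun x =>
        ⟨Subtype.ext (κ.2.1 x.1).1, fun h => (κ.2.1 x.1).2 (congrArg Subtype.val h)⟩⟩) :
      {τ : Equiv.Perm {x : KX r // x.1 ∈ A} // IsPair τ} ×
        {τ : Equiv.Perm {x : KX r // ¬ x.1 ∈ A} // IsPair τ}))
  intro κ κ' h
  have h1 := congrArg (fun z => z.1.1) h
  have h2 := congrArg (fun z => z.2.1) h
  apply Subtype.ext
  apply Equiv.ext
  intro x
  by_cases hx : x.1 ∈ A
  · have h3 := congrArg (fun σ : Equiv.Perm {x : KX r // x.1 ∈ A} => (σ ⟨x, hx⟩).1) h1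
    exact h3
  · have h3 := congrArg (fun σ : Equiv.Perm {x : KX r // ¬ x.1 ∈ A} => (σ ⟨x, hx⟩).1) h2
    exact h3

theorem card_disc (hPMC : StmtPMC) (r : ℕ) :
    Nat.card {κ : Equiv.Perm (KX r) // IsPair κ ∧ ¬ KConn κ} ≤
      ∑ a ∈ Icc 1 (2 * r - 1), (2 * r).choose a * (cc a * cc (2 * r - a)) := by
  classical
  let I : Type := {A : Finset (Fin (2 * r)) // A.Nonempty ∧ A ≠ univ}
  have hex : ∀ κ : {κ : Equiv.Perm (KX r) // IsPair κ ∧ ¬ KConn κ},
      ∃ A : I, ∀ x, x.1 ∈ A.1 → (κ.1 x).1 ∈ A.1 := by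
    rintro ⟨κ, hκ, hc⟩
    unfold KConn at hc
    push Not at hc
    obtain ⟨P, h1, h2, ⟨x, hx⟩, y, hy⟩ := hc
    have hP : ∀ z : KX r, z.1 ∈ (univ.filter fun v : Fin (2 * r) => P (v, 0)) ↔ P z := by
      intro z
      rw [mem_filter]
      constructor
      · rintro ⟨_, h⟩
        exact h2 (z.1, 0) z rfl h
      · intro h
        exact ⟨mem_univ _, h2 z (z.1, 0) rfl h⟩
    refine ⟨⟨univ.filter fun v : Fin (2 * r) => P (v, 0), ⟨x.1, (hP x).2 hx⟩, ?_⟩, ?_⟩
    · intro h
      apply hy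
      rw [← hP y, h]
      exact mem_univ _
    · intro z hz
      rw [hP] at hz ⊢
      exact h1 z hz
  choose AA hAA using hex
  have hle : Nat.card {κ : Equiv.Perm (KX r) // IsPair κ ∧ ¬ KConn κ} ≤
      Nat.card (Σ A : I, {κ : Equiv.Perm (KX r) // IsPair κ ∧ ∀ x, x.1 ∈ A.1 → (κ x).1 ∈ A.1}) := by
    apply Nat.card_le_card_of_injective (fun κ => ⟨AA κ, ⟨κ.1, κ.2.1, hAA κ⟩⟩)
    intro κ κ' h
    apply Subtype.ext
    rw [Sigma.mk.injEq] at h
    obtain ⟨h1, h2⟩ := h
    have h3 : ∀ (A A' : I) (_ : A = A')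
        (k : {κ : Equiv.Perm (KX r) // IsPair κ ∧ ∀ x, x.1 ∈ A.1 → (κ x).1 ∈ A.1})
        (k' : {κ : Equiv.Perm (KX r) // IsPair κ ∧ ∀ x, x.1 ∈ A'.1 → (κ x).1 ∈ A'.1}),
        k ≍ k' → k.1 = k'.1 := by
      rintro A _ rfl k k' hk
      rw [eq_of_heq hk]
    exact h3 _ _ h1 _ _ h2
  refine hle.trans ?_
  rw [Nat.card_sigma]
  calc ∑ A : I, Nat.card {κ : Equiv.Perm (KX r) // IsPair κ ∧ ∀ x, x.1 ∈ A.1 → (κ x).1 ∈ A.1}
      ≤ ∑ A : I, cc #A.1 * cc (2 * r - #A.1) := sum_le_sum fun A _ => card_pres hPMC A.1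
    _ = ∑ A : Finset (Fin (2 * r)) with A.Nonempty ∧ A ≠ univ, cc #A * cc (2 * r - #A) := by
        rw [Finset.sum_subtype (p := fun A : Finset (Fin (2 * r)) => A.Nonempty ∧ A ≠ univ)]
        intro A
        simp
    _ ≤ ∑ A : Finset (Fin (2 * r)), (if 1 ≤ #A ∧ #A ≤ 2 * r - 1 then
          cc #A * cc (2 * r - #A) else 0) := by
        rw [sum_filter]
        apply sum_le_sum
        intro A _
        by_cases h : A.Nonempty ∧ A ≠ univ
        · rw [if_pos h, if_pos]
          refine ⟨h.1.card_pos, ?_⟩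
          have h1 : #A < 2 * r := by
            have h2 : #A < #(univ : Finset (Fin (2 * r))) :=
              card_lt_card (ssubset_univ_iff.2 h.2)
            simpa using h2
          omega
        · rw [if_neg h]
          exact Nat.zero_le _
    _ = ∑ a ∈ range (2 * r + 1), (2 * r).choose a * (if 1 ≤ a ∧ a ≤ 2 * r - 1 then
          cc a * cc (2 * r - a) else 0) := by
        have h := Finset.sum_powerset_apply_card (fun a : ℕ => if 1 ≤ a ∧ a ≤ 2 * r - 1 then
          cc a * cc (2 * r - a) else 0) (x := (univ : Finset (Fin (2 * r))))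
        rw [powerset_univ, card_univ, Fintype.card_fin] at h
        rw [h]
        simp only [smul_eq_mul]
    _ = ∑ a ∈ Icc 1 (2 * r - 1), (2 * r).choose a * (cc a * cc (2 * r - a)) := by
        symm
        have hs : Icc 1 (2 * r - 1) ⊆ range (2 * r + 1) := by
          intro a ha
          rw [mem_Icc] at ha
          rw [mem_range]
          omega
        rw [← sum_subset hs]
        · apply sum_congr rfl
          intro a ha
          rw [mem_Icc] at ha
          rw [if_pos ha]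
        · intro a _ ha
          rw [mem_Icc] at ha
          rw [if_neg ha, mul_zero]

/-! ### The sum -/

theorem sum_even (r : ℕ) (g : ℕ → ℝ) (hg : ∀ a, ¬ Even a → g a = 0) :
    ∑ a ∈ Icc 1 (2 * r - 1), g a = ∑ j ∈ Icc 1 (r - 1), g (2 * j) := by
  classical
  rw [← sum_image (s := Icc 1 (r - 1)) (g := fun j => 2 * j) (f := g)
    (fun a _ b _ h => by have h' : 2 * a = 2 * b := h; omega)]
  symm
  apply sum_subset
  · intro a ha
    rw [mem_image] at ha
    obtain ⟨j, hj, rfl⟩ := ha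
    rw [mem_Icc] at hj ⊢
    omega
  · intro a ha hna
    apply hg
    rintro ⟨b, rfl⟩
    apply hna
    rw [mem_image]
    rw [mem_Icc] at ha
    exact ⟨b, mem_Icc.2 ⟨by omega, by omega⟩, by ring⟩

theorem inv_choose_le {r j : ℕ} (hr : 4 ≤ r) (h1 : 1 ≤ j) (h2 : j ≤ r - 1) :
    1 / (r.choose j : ℝ) ≤ 2 / ((r : ℝ) * (r - 1)) + ((if j = 1 then 1 / (r : ℝ) else 0) +
      (if j = r - 1 then 1 / (r : ℝ) else 0)) := by
  have hr' : (4 : ℝ) ≤ r := by exact_mod_cast hr
  have hpos : (0 : ℝ) < (r : ℝ) * (r - 1) := by nlinarith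
  have hp2 : (0 : ℝ) < 2 / ((r : ℝ) * (r - 1)) := by positivity
  have hp3 : (0 : ℝ) ≤ 1 / (r : ℝ) := by positivity
  by_cases hj1 : j = 1
  · subst hj1
    rw [if_pos rfl, Nat.choose_one_right]
    split_ifs <;> linarith
  · by_cases hj2 : j = r - 1
    · subst hj2
      rw [if_pos rfl]
      have h3 : r.choose (r - 1) = r := by
        rw [Nat.choose_symm (by omega), Nat.choose_one_right]
      rw [h3]
      split_ifs <;> linarith
    · rw [if_neg hj1, if_neg hj2]
      have h3 := choose_ge r j (r - j) (by omega) (by omega) (by omega)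
      rw [add_zero, add_zero]
      have h4 : 2 / ((r : ℝ) * (r - 1)) = 1 / ((r : ℝ) * (r - 1) / 2) := by
        field_simp
      rw [h4]
      apply one_div_le_one_div_of_le (by positivity) h3

theorem sum_inv_choose {r : ℕ} (hr : 4 ≤ r) :
    ∑ j ∈ Icc 1 (r - 1), 1 / (r.choose j : ℝ) ≤ 4 / r := by
  have hr' : (4 : ℝ) ≤ r := by exact_mod_cast hr
  calc ∑ j ∈ Icc 1 (r - 1), 1 / (r.choose j : ℝ)
      ≤ ∑ j ∈ Icc 1 (r - 1), (2 / ((r : ℝ) * (r - 1)) + ((if j = 1 then 1 / (r : ℝ) else 0) +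
        (if j = r - 1 then 1 / (r : ℝ) else 0))) := by
        apply sum_le_sum
        intro j hj
        rw [mem_Icc] at hj
        exact inv_choose_le hr hj.1 hj.2
    _ = 4 / r := by
        rw [sum_add_distrib, sum_add_distrib, sum_const, sum_ite_eq', sum_ite_eq',
          if_pos (mem_Icc.2 ⟨le_refl _, by omega⟩), if_pos (mem_Icc.2 ⟨by omega, le_refl _⟩),
          Nat.card_Icc]
        have h1 : r - 1 + 1 - 1 = r - 1 := by omega
        rw [h1, nsmul_eq_mul, Nat.cast_sub (by omega)]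
        push_cast
        have h2 : (r : ℝ) - 1 ≠ 0 := by linarith
        have h3 : (r : ℝ) ≠ 0 := by linarith
        field_simp
        ring

theorem goalKDI (hPMC : StmtPMC) : StmtKDI := by
  refine ⟨16, fun r hr => ?_⟩
  have hr4 : 4 ≤ r := by omega
  have hD : (0 : ℝ) < DD (3 * r) := by exact_mod_cast DD_pos _
  have h1 := card_disc hPMC r
  have h2 : ((∑ a ∈ Icc 1 (2 * r - 1), (2 * r).choose a * (cc a * cc (2 * r - a)) : ℕ) : ℝ) ≤
      DD (3 * r) * (4 / r) := by
    push_cast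
    rw [sum_even r]
    · calc ∑ j ∈ Icc 1 (r - 1), ((2 * r).choose (2 * j) : ℝ) *
            ((cc (2 * j) : ℝ) * (cc (2 * r - 2 * j) : ℝ))
          ≤ ∑ j ∈ Icc 1 (r - 1), (DD (3 * r) : ℝ) * (1 / (r.choose j : ℝ)) := by
            apply sum_le_sum
            intro j hj
            rw [mem_Icc] at hj
            have h3 := DD_le j (r - j)
            have e1 : j + (r - j) = r := by omega
            rw [e1] at h3
            have e2 : cc (2 * j) = DD (3 * j) := by
              unfold cc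
              rw [if_pos ⟨j, by ring⟩]
              congr 1
              omega
            have e3 : cc (2 * r - 2 * j) = DD (3 * (r - j)) := by
              unfold cc
              rw [if_pos ⟨r - j, by omega⟩]
              congr 1
              omega
            rw [e2, e3]
            have hc : (0 : ℝ) < (r.choose j : ℝ) := by
              exact_mod_cast Nat.choose_pos (by omega)
            rw [mul_one_div, le_div_iff₀ hc]
            have h4 : ((2 * r).choose (2 * j) : ℝ) *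
                ((DD (3 * j) : ℝ) * (DD (3 * (r - j)) : ℝ)) * (r.choose j : ℝ) =
                (((DD (3 * j) * DD (3 * (r - j)) * ((2 * r).choose (2 * j) * r.choose j) : ℕ)) : ℝ) := by
              push_cast
              ring
            rw [h4]
            exact_mod_cast h3
        _ = (DD (3 * r) : ℝ) * ∑ j ∈ Icc 1 (r - 1), (1 / (r.choose j : ℝ)) := by rw [mul_sum]
        _ ≤ DD (3 * r) * (4 / r) := mul_le_mul_of_nonneg_left (sum_inv_choose hr4) hD.le
    · intro a ha
      have : cc a = 0 := by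
        unfold cc
        rw [if_neg ha]
      rw [this]
      simp
  have h3 : (4 : ℝ) / r ≤ 1 / 4 := by
    have hr' : (16 : ℝ) ≤ r := by exact_mod_cast hr
    rw [div_le_iff₀ (by linarith)]
    linarith
  have h4 : ((4 * Nat.card {κ : Equiv.Perm (KX r) // IsPair κ ∧ ¬ KConn κ} : ℕ) : ℝ) ≤
      DD (3 * r) := by
    push_cast
    have h5 : (Nat.card {κ : Equiv.Perm (KX r) // IsPair κ ∧ ¬ KConn κ} : ℝ) ≤
        ((∑ a ∈ Icc 1 (2 * r - 1), (2 * r).choose a * (cc a * cc (2 * r - a)) : ℕ) : ℝ) := by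
      exact_mod_cast h1
    have h6 : (DD (3 * r) : ℝ) * (4 / r) ≤ DD (3 * r) * (1 / 4) :=
      mul_le_mul_of_nonneg_left h3 hD.le
    linarith
  have h7 : 4 * Nat.card {κ : Equiv.Perm (KX r) // IsPair κ ∧ ¬ KConn κ} ≤ DD (3 * r) := by
    exact_mod_cast h4
  have h8 : DD (3 * r) = Nat.doubleFactorial (6 * r - 1) := by
    unfold DD
    congr 1
    omega
  rwa [h8] at h7

end Pool.Agent.Helper24.AF
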