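import Pool.Agent.Helper26.AF.Goals2

/-!
Project AF (MP_af6c86_pr), packet TRS: relabelling of good cores.
-/

namespace Pool.Agent.Helper24.AF

open Finset Pool.Agent.Helper26.AF

/-! ### Orbits under conjugation -/

theorem permCongr_zpow {D E : Type} (e : D ≃ E) (π : Equiv.Perm D) (i : ℤ) (x : D) :
    ((e.permCongr π) ^ i) (e x) = e ((π ^ i) x) := by
  have h : (e.permCongr π) ^ i = e.permCongr (π ^ i) :=
    (map_zpow (Equiv.permCongrHom e) π i).symm
  rw [h]
  simp [Equiv.permCongr_apply]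

theorem sameCycle_permCongr {D E : Type} (e : D ≃ E) (π : Equiv.Perm D) (x y : D) :
    (e.permCongr π).SameCycle (e x) (e y) ↔ π.SameCycle x y := by
  unfold Equiv.Perm.SameCycle
  refine exists_congr fun i => ?_
  rw [permCongr_zpow, e.apply_eq_iff_eq]

theorem orb_permCongr {D E : Type} (e : D ≃ E) (π : Equiv.Perm D) :
    orb (e.permCongr π) = orb π := by
  unfold orb
  apply Nat.card_congr
  symm
  apply Quotient.congr e
  intro a b
  exact (sameCycle_permCongr e π a b).symm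

/-! ### Transport of rotation systems -/

section iso

variable {V W : Type} {G : SimpleGraph V} {G' : SimpleGraph W}

/-- The darts of isomorphic graphs. -/
def dartE (φ : G ≃g G') : G.Dart ≃ G'.Dart where
  toFun d := ⟨(φ d.fst, φ d.snd), φ.map_adj_iff.2 d.adj⟩
  invFun d := ⟨(φ.symm d.fst, φ.symm d.snd), φ.symm.map_adj_iff.2 d.adj⟩
  left_inv d := by
    apply SimpleGraph.Dart.ext
    simp
  right_inv d := by
    apply SimpleGraph.Dart.ext
    simp

theorem dartE_fst (φ : G ≃g G') (d : G.Dart) : (dartE φ d).fst = φ d.fst := rfl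

theorem rot_iso (φ : G ≃g G') {σ : Equiv.Perm G.Dart} (h : IsRot G σ) :
    IsRot G' ((dartE φ).permCongr σ) := by
  constructor
  · intro d
    obtain ⟨d, rfl⟩ := (dartE φ).surjective d
    rw [Equiv.permCongr_apply, Equiv.symm_apply_apply, dartE_fst, dartE_fst, h.src]
  · intro d e hde
    obtain ⟨d, rfl⟩ := (dartE φ).surjective d
    obtain ⟨e, rfl⟩ := (dartE φ).surjective e
    rw [sameCycle_permCongr]
    apply h.cyc
    exact φ.injective hde

theorem faces_iso (φ : G ≃g G') (σ : Equiv.Perm G.Dart) :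
    orb ((dartE φ).permCongr σ * rev G') = orb (σ * rev G) := by
  rw [← orb_permCongr (dartE φ) (σ * rev G)]
  congr 1

theorem bound_iso (φ : G ≃g G') {b : ℕ} (h : ∀ σ, IsRot G σ → orb (σ * rev G) ≤ b) :
    ∀ σ, IsRot G' σ → orb (σ * rev G') ≤ b := by
  intro σ hσ
  have h1 := h _ (rot_iso φ.symm hσ)
  rwa [faces_iso φ.symm] at h1

theorem dg_iso (φ : G ≃g G') (v : V) : dg G' (φ v) = dg G v := by
  unfold dg
  exact Nat.card_congr (φ.mapNeighborSet v).symm

end iso

theorem two_ne {V : Type} [Fintype V] (G : SimpleGraph V) : ∑ v, dg G v = 2 * ne G := by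
  classical
  have h1 := G.sum_degrees_eq_twice_card_edges
  have h2 : ∀ v, dg G v = G.degree v := by
    intro v
    unfold dg
    rw [Nat.card_eq_fintype_card, SimpleGraph.card_neighborSet_eq_degree]
  have h3 : ne G = #G.edgeFinset := by
    unfold ne
    rw [Nat.card_eq_fintype_card, SimpleGraph.edgeFinset_card]
  rw [h3, ← h1]
  exact sum_congr rfl fun v _ => h2 v

/-! ### The relabelling -/

theorem exists_equiv {r N : ℕ} (B : Finset (Fin (2 * r + N))) (hB : #B = 2 * r) :
    ∃ e : Fin (2 * r) ⊕ Fin N ≃ Fin (2 * r + N), (∀ x, e (Sum.inl x) ∈ B) ∧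
      ∀ y, e (Sum.inr y) ∉ B := by
  classical
  have h1 : Fintype.card {x // x ∈ B} = 2 * r := by rw [Fintype.card_coe, hB]
  have h2 : Fintype.card {x // ¬ x ∈ B} = N := by
    rw [Fintype.card_subtype_compl, Fintype.card_coe, hB, Fintype.card_fin]
    omega
  refine ⟨(Equiv.sumCongr (Fintype.equivFinOfCardEq h1).symm
    (Fintype.equivFinOfCardEq h2).symm).trans (Equiv.sumCompl (fun x => x ∈ B)), ?_, ?_⟩
  · intro x
    exact ((Fintype.equivFinOfCardEq h1).symm x).2
  · intro y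
    exact ((Fintype.equivFinOfCardEq h2).symm y).2

theorem goalTRS : StmtTRS := by
  classical
  intro r N b
  have hch : (2 * r + N).choose (2 * r) =
      Nat.card {B : Finset (Fin (2 * r + N)) // #B = 2 * r} := by
    rw [Nat.card_eq_fintype_card, Fintype.card_finset_len, Fintype.card_fin]
  rw [hch, ← Nat.card_prod]
  choose e he1 he2 using fun B : {B : Finset (Fin (2 * r + N)) // #B = 2 * r} =>
    exists_equiv B.1 B.2
  have hTT : ∀ (B : {B : Finset (Fin (2 * r + N)) // #B = 2 * r})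
      (Γ : {Γ : SimpleGraph (Fin (2 * r) ⊕ Fin N) //
        Γ.Connected ∧ (∀ v, dg Γ (Sum.inl v) = 3) ∧ (∀ w, dg Γ (Sum.inr w) = 2) ∧
        ∀ σ, IsRot Γ σ → orb (σ * rev Γ) ≤ b}),
      TT r b (2 * r + N) (Γ.1.comap (e B).symm) := by
    rintro B ⟨Γ, h1, h2, h3, h4⟩
    let φ : Γ.comap (e B).symm ≃g Γ := SimpleGraph.Iso.comap (e B).symm Γ
    refine ⟨φ.connected_iff.2 h1, ?_, ?_, bound_iso φ.symm h4⟩
    · intro v
      rw [← dg_iso φ v]
      rcases φ v with x | y
      · rw [h2]; omega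
      · rw [h3]
    · have h5 := two_ne (Γ.comap (e B).symm)
      have h6 : ∑ v, dg (Γ.comap (e B).symm) v = ∑ v : Fin (2 * r) ⊕ Fin N, dg Γ v := by
        rw [← Equiv.sum_comp (e B).symm]
        exact sum_congr rfl fun v _ => (dg_iso φ v).symm
      rw [h6, Fintype.sum_sum_type] at h5
      simp only [h2, h3, sum_const, card_univ, Fintype.card_fin, smul_eq_mul] at h5
      show ne (Γ.comap (e B).symm) = 2 * r + N + r
      omega
  have hdeg : ∀ (B : {B : Finset (Fin (2 * r + N)) // #B = 2 * r})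
      (Γ : {Γ : SimpleGraph (Fin (2 * r) ⊕ Fin N) //
        Γ.Connected ∧ (∀ v, dg Γ (Sum.inl v) = 3) ∧ (∀ w, dg Γ (Sum.inr w) = 2) ∧
        ∀ σ, IsRot Γ σ → orb (σ * rev Γ) ≤ b}) (v : Fin (2 * r + N)),
      v ∈ B.1 ↔ dg (Γ.1.comap (e B).symm) v = 3 := by
    rintro B ⟨Γ, h1, h2, h3, h4⟩ v
    let φ : Γ.comap (e B).symm ≃g Γ := SimpleGraph.Iso.comap (e B).symm Γ
    have h5 := dg_iso φ v
    have h6 : φ v = (e B).symm v := rfl
    rw [h6] at h5
    show v ∈ B.1 ↔ dg (Γ.comap (e B).symm) v = 3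
    rw [← h5]
    obtain ⟨w, rfl⟩ := (e B).surjective v
    rw [Equiv.symm_apply_apply]
    rcases w with x | y
    · rw [h2]
      exact ⟨fun _ => rfl, fun _ => he1 B x⟩
    · rw [h3]
      exact ⟨fun h => absurd h (he2 B y), fun h => absurd h (by norm_num)⟩
  apply Nat.card_le_card_of_injective (fun p => ⟨p.2.1.comap (e p.1).symm, hTT p.1 p.2⟩)
  rintro ⟨B, Γ⟩ ⟨B', Γ'⟩ h
  have h1 : Γ.1.comap (e B).symm = Γ'.1.comap (e B').symm := congrArg Subtype.val h
  have hB : B = B' := by
    apply Subtype.ext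
    ext v
    rw [hdeg B Γ v, hdeg B' Γ' v, h1]
  subst hB
  have h2 : Γ.1 = Γ'.1 := by
    have h3 := congrArg (fun X => SimpleGraph.comap (e B) X) h1
    simp only [SimpleGraph.comap_comap] at h3
    have h4 : (⇑(e B).symm ∘ ⇑(e B)) = id := by
      funext x
      simp
    rw [h4] at h3
    simpa using h3
  have h3 : Γ = Γ' := Subtype.ext h2
  rw [h3]

end Pool.Agent.Helper24.AF
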